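import Pool.Agent.Helper83.TW.Goals2

set_option autoImplicit false

namespace Pool.Agent.Helper69.TW

open Complex Set Pool.Agent.Helper83.TW

theorem DG_add_real {r : ℝ} {p : ℂ × ℂ} (h : p ∈ DG r) (t : ℝ) : (p.1 + (t : ℂ), p.2) ∈ DG r := by
  refine ⟨?_, h.2⟩
  have := h.1
  simpa using this

theorem per_nat {g : ℂ × ℂ → ℂ} {r : ℝ} (h : ∀ p ∈ DG r, g (p.1 + 1, p.2) = g p) :
    ∀ n : ℕ, ∀ p ∈ DG r, g (p.1 + n, p.2) = g p := by
  intro n
  induction n with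
  | zero => intro p _; simp
  | succ n ih =>
    intro p hp
    have h1 : ((p.1 + (n : ℂ), p.2) : ℂ × ℂ) ∈ DG r := by
      have := DG_add_real hp (n : ℝ)
      simpa using this
    have h2 := h _ h1
    simp only at h2
    rw [← ih p hp, ← h2]
    push_cast
    rw [add_assoc]

theorem per_int {g : ℂ × ℂ → ℂ} {r : ℝ} (h : ∀ p ∈ DG r, g (p.1 + 1, p.2) = g p)
    (n : ℤ) (p : ℂ × ℂ) (hp : p ∈ DG r) : g (p.1 + n, p.2) = g p := by
  rcases Int.eq_nat_or_neg n with ⟨m, rfl | rfl⟩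
  · have := per_nat h m p hp
    simpa using this
  · have h1 : ((p.1 + (((-(m:ℤ) : ℤ)) : ℂ), p.2) : ℂ × ℂ) ∈ DG r := by
      have := DG_add_real hp (-(m : ℝ))
      simpa using this
    have := per_nat h m _ h1
    simp only at this
    rw [← this]
    push_cast
    congr 1
    simp

/-- the window theorem from its parts -/
theorem gW (H1 : GStage1) (HG : GGen) (HC : GC0) (HP : GPer) (HI : GId) : GW := by
  obtain ⟨A0, hA0⟩ := H1
  refine ⟨2 * A0 + 2, ?_⟩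
  intro P Q ρ η hNI hη ι U hL
  obtain ⟨y, g, c0, hG⟩ := HG P Q ρ η hNI
  have hc0 : c0 = 0 := HC P Q ρ η hNI ι U hL y g c0 hG
  subst hc0
  have hρ0 := hNI.hρ0
  have hρ1 := hNI.hρ1
  have hper : ∀ p ∈ DG (ρ/2), g (p.1 + 1, p.2) = g p := by
    intro p hp
    rw [hG.gp p hp, add_zero]
  have hhol : Hol g (DG (ρ/2)) := ⟨hG.gd, hper, hG.gs⟩
  have hnum : 6 * η ≤ (ρ/2) ^ A0 := by
    have e1 : ρ ^ (2 * A0 + 2) = ρ ^ A0 * ρ ^ A0 * ρ ^ 2 := by ring
    have e2 : (ρ/2) ^ A0 = ρ ^ A0 * (1/2) ^ A0 := by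
      rw [← mul_pow]; congr 1; ring
    have e3 : ρ ^ A0 ≤ (1/2 : ℝ) ^ A0 := pow_le_pow_left₀ hρ0.le (by linarith) _
    have e4 : 6 * ρ ^ 2 ≤ 1 := by nlinarith
    have e5 : 0 ≤ ρ ^ A0 := by positivity
    have e6 : 0 ≤ (1/2 : ℝ) ^ A0 := by positivity
    calc 6 * η ≤ 6 * ρ ^ (2 * A0 + 2) := by linarith
      _ = (ρ ^ A0 * ρ ^ A0) * (6 * ρ ^ 2) := by rw [e1]; ring
      _ ≤ (ρ ^ A0 * (1/2) ^ A0) * 1 := by
          apply mul_le_mul _ e4 (by positivity) (by positivity)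
          exact mul_le_mul_of_nonneg_left e3 e5
      _ = (ρ/2) ^ A0 := by rw [e2, mul_one]
  have hb : ∀ p ∈ DG (ρ/2), ‖g p‖ ≤ (ρ/2) ^ A0 := by
    intro p hp
    have h1 := per_int hper (-(round p.1.re)) p hp
    have h2 : ((p.1 + ((-(round p.1.re) : ℤ) : ℂ), p.2) : ℂ × ℂ) ∈ DG (ρ/2) := by
      have := DG_add_real hp (-(round p.1.re : ℝ))
      simpa using this
    have h3 := hG.gb _ h2 (by
      have h4 := abs_sub_round p.1.re
      have : (p.1 + ((-(round p.1.re) : ℤ) : ℂ)).re = p.1.re - round p.1.re := by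
        simp; ring
      simp only
      rw [this]
      linarith)
    rw [h1] at h3
    exact h3.trans hnum
  have hper' : PERc g := HP P Q ρ η hNI ι U hL y g hG
  have hlim : LimProp g := hA0 (ρ/2) (by linarith) (by linarith) g hhol hb hper'
  exact HI P Q ρ η hNI ι U hL y g hG hlim

end Pool.Agent.Helper69.TW
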